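import Pool.Agent.Helper28.VF.Defs

/-! MP_8b6ec2_co, packet HOLE: Euler inequality for a connected region. -/

open Finset Equiv
open Helper28.VF

namespace Pool.Agent.Helper89.VF

section
variable {D V E F : Type} [Fintype D] [Fintype V] [Fintype E] [Fintype F]
  [DecidableEq D] [DecidableEq V] [DecidableEq E] [DecidableEq F] (M : PM D V E F)

omit [DecidableEq D] [DecidableEq V] [DecidableEq E] [DecidableEq F] in
theorem vt_σ (d : D) : M.vt (M.σ d) = M.vt d :=
  (M.vt_iff _ _).2 (by rw [Equiv.Perm.sameCycle_apply_left])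

omit [DecidableEq D] [DecidableEq V] [DecidableEq E] [DecidableEq F] in
theorem fc_φ (d : D) : M.fc (M.σ (M.α d)) = M.fc d :=
  (M.fc_iff _ _).2 (by rw [← Equiv.Perm.mul_apply, Equiv.Perm.sameCycle_apply_left])

omit [DecidableEq D] [DecidableEq V] [DecidableEq E] [DecidableEq F] in
theorem ed_α (d : D) : M.ed (M.α d) = M.ed d :=
  (M.ed_iff _ _).2 (Or.inr (M.α_inv d).symm)

omit [DecidableEq D] [DecidableEq V] [DecidableEq E] [DecidableEq F] in
theorem fc_σ (d : D) : M.fc (M.σ d) = M.fc (M.α d) := by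
  have := fc_φ M (M.α d)
  rwa [M.α_inv] at this

omit [DecidableEq D] [DecidableEq V] [DecidableEq E] [DecidableEq F] in
theorem full_α {YV : Finset V} {YF : Finset F} {d : D} (h : M.Full YV YF d) :
    M.Full YV YF (M.α d) := by
  obtain ⟨h1, h2, h3, h4⟩ := h
  refine ⟨h2, ?_, h4, ?_⟩
  · rw [M.α_inv]; exact h1
  · rw [M.α_inv]; exact h3

omit [DecidableEq D] in
theorem mem_SE {YV : Finset V} {YF : Finset F} {c : D} :
    M.ed c ∈ M.SE YV YF ↔ M.Full YV YF c := by
  unfold PM.SE
  rw [Finset.mem_image]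
  constructor
  · rintro ⟨d, hd, he⟩
    rw [Finset.mem_filter] at hd
    rcases (M.ed_iff _ _).1 he with rfl | rfl
    · exact hd.2
    · exact full_α M hd.2
  · intro h
    exact ⟨c, Finset.mem_filter.2 ⟨Finset.mem_univ _, h⟩, rfl⟩

omit [DecidableEq D] [DecidableEq E] in
theorem mem_DS {YV : Finset V} {YF : Finset F} {c : D} :
    c ∈ M.DS YV YF ↔ M.Full YV YF c ∨ M.Full YV YF (M.σ.symm c) := by
  unfold PM.DS
  rw [Finset.mem_filter]
  exact ⟨fun h => h.2, fun h => ⟨Finset.mem_univ _, h⟩⟩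

/-- extension by zero -/
noncomputable def ez {A : Type} [DecidableEq A] (S : Finset A) (y : S → ℚ) (a : A) : ℚ :=
  if h : a ∈ S then y ⟨a, h⟩ else 0

theorem ez_add {A : Type} [DecidableEq A] (S : Finset A) (y y' : S → ℚ) (a : A) :
    ez S (y + y') a = ez S y a + ez S y' a := by
  unfold ez
  split_ifs <;> simp

theorem ez_smul {A : Type} [DecidableEq A] (S : Finset A) (r : ℚ) (y : S → ℚ) (a : A) :
    ez S (r • y) a = r * ez S y a := by
  unfold ez
  split_ifs <;> simp

theorem ez_val {A : Type} [DecidableEq A] (S : Finset A) (y : S → ℚ) (a : S) :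
    ez S y a = y a := by
  unfold ez
  rw [dif_pos a.2]

omit [DecidableEq E] in
/-- the general inequality -/
theorem general (YV : Finset V) (YF : Finset F) (hCn : M.Cn YV YF) (T : Type) [Fintype T]
    (cl : E → T) (hcl : Function.Surjective cl) (t₀ : T)
    (hcl' : ∀ c, c ∉ M.DS YV YF → cl (M.ed c) = cl (M.ed (M.σ.symm c))) :
    Fintype.card T + YV.card + YF.card ≤ (M.DS YV YF).card + 2 := by
  classical
  obtain ⟨ev, hev⟩ : ∃ ev : ((YV → ℚ) × (YF → ℚ)) →ₗ[ℚ] ℚ, ∀ y w, ev (y, w) = 0 →
      (∃ v : YV, y v = 0) ∨ (∃ f : YF, w f = 0) ∨ (YV = ∅ ∧ YF = ∅) := by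
    rcases YV.eq_empty_or_nonempty with hV | ⟨v, hv⟩
    · rcases YF.eq_empty_or_nonempty with hF | ⟨f, hf⟩
      · exact ⟨0, fun _ _ _ => Or.inr (Or.inr ⟨hV, hF⟩)⟩
      · exact ⟨(LinearMap.proj (R := ℚ) (φ := fun _ : YF => ℚ) ⟨f, hf⟩).comp
          (LinearMap.snd ℚ _ _), fun y w h => Or.inr (Or.inl ⟨⟨f, hf⟩, h⟩)⟩
    · exact ⟨(LinearMap.proj (R := ℚ) (φ := fun _ : YV => ℚ) ⟨v, hv⟩).comp
        (LinearMap.fst ℚ _ _), fun y w h => Or.inl ⟨⟨v, hv⟩, h⟩⟩
  let Φ : ((T → ℚ) × ((YV → ℚ) × (YF → ℚ))) →ₗ[ℚ] ((M.DS YV YF → ℚ) × (ℚ × ℚ)) :=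
    { toFun := fun u => (fun c => u.1 (cl (M.ed c)) - u.1 (cl (M.ed (M.σ.symm c))) +
        (ez YV u.2.1 (M.vt c) + ez YF u.2.2 (M.fc c)), (u.1 t₀, ev u.2))
      map_add' := by
        intro u u'
        refine Prod.ext ?_ (Prod.ext ?_ ?_)
        · funext c
          simp only [Prod.fst_add, Prod.snd_add, Pi.add_apply, ez_add]
          ring
        · rfl
        · simp only [Prod.snd_add, map_add]
      map_smul' := by
        intro r u
        refine Prod.ext ?_ (Prod.ext ?_ ?_)
        · funext c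
          simp only [Prod.smul_fst, Prod.smul_snd, Pi.smul_apply, ez_smul, smul_eq_mul,
            RingHom.id_apply]
          ring
        · rfl
        · simp only [Prod.smul_snd, map_smul, RingHom.id_apply] }
  have hinj : Function.Injective Φ := by
    rw [← LinearMap.ker_eq_bot, LinearMap.ker_eq_bot']
    rintro ⟨x, y, w⟩ h0
    have h1 : ∀ c : M.DS YV YF, x (cl (M.ed c)) - x (cl (M.ed (M.σ.symm c))) +
        (ez YV y (M.vt c) + ez YF w (M.fc c)) = 0 := fun c => congrFun (congrArg Prod.fst h0) c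
    have h2 : x t₀ = 0 := congrArg (fun u => u.2.1) h0
    have h3 : ev (y, w) = 0 := congrArg (fun u => u.2.2) h0
    set a : D → ℚ := fun c => x (cl (M.ed c)) - x (cl (M.ed (M.σ.symm c))) with ha
    set b : D → ℚ := fun c => ez YV y (M.vt c) + ez YF w (M.fc c) with hb
    have hab : ∀ c ∈ M.DS YV YF, b c = - a c := by
      intro c hc
      have := h1 ⟨c, hc⟩
      simp only [ha, hb]
      linarith
    have ha0 : ∀ c, c ∉ M.DS YV YF → a c = 0 := by
      intro c hc
      simp only [ha]
      rw [hcl' c hc, sub_self]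
    -- orthogonality
    have o1 : ∑ c, a c * ez YV y (M.vt c) = 0 := by
      simp only [ha, sub_mul]
      rw [Finset.sum_sub_distrib, sub_eq_zero]
      rw [← Equiv.sum_comp M.σ (fun c => x (cl (M.ed (M.σ.symm c))) * ez YV y (M.vt c))]
      apply Finset.sum_congr rfl
      intro c _
      rw [Equiv.symm_apply_apply, vt_σ]
    have o2 : ∑ c, a c * ez YF w (M.fc c) = 0 := by
      simp only [ha, sub_mul]
      rw [Finset.sum_sub_distrib, sub_eq_zero]
      rw [← Equiv.sum_comp (M.σ * M.α) (fun c => x (cl (M.ed (M.σ.symm c))) * ez YF w (M.fc c))]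
      apply Finset.sum_congr rfl
      intro c _
      rw [Equiv.Perm.mul_apply, Equiv.symm_apply_apply, ed_α, fc_φ]
    have o3 : ∑ c, a c * b c = 0 := by
      simp only [hb, mul_add]
      rw [Finset.sum_add_distrib, o1, o2, add_zero]
    have o4 : ∑ c, a c * b c = - ∑ c, a c ^ 2 := by
      rw [← Finset.sum_neg_distrib]
      apply Finset.sum_congr rfl
      intro c _
      by_cases hc : c ∈ M.DS YV YF
      · rw [hab c hc]; ring
      · rw [ha0 c hc]; ring
    have o5 : ∑ c, a c ^ 2 = 0 := by linarith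
    have o6 : ∀ c, a c = 0 := by
      intro c
      have := (Finset.sum_eq_zero_iff_of_nonneg (fun c _ => sq_nonneg (a c))).1 o5 c
        (Finset.mem_univ _)
      exact pow_eq_zero_iff (two_ne_zero) |>.1 this
    -- x = 0
    obtain ⟨e₀, he₀⟩ := hcl t₀
    obtain ⟨d₀, hd₀⟩ := M.ed_surj e₀
    have hx : ∀ d, x (cl (M.ed d)) = 0 := by
      apply M.conn
      · exact ⟨d₀, by rw [hd₀, he₀]; exact h2⟩
      · intro d hd
        have := o6 (M.σ d)
        simp only [ha, Equiv.symm_apply_apply] at this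
        linarith
      · intro d hd
        rw [ed_α]
        exact hd
    have hx0 : x = 0 := by
      funext t
      obtain ⟨e, rfl⟩ := hcl t
      obtain ⟨d, rfl⟩ := M.ed_surj e
      exact hx d
    -- y = 0, w = 0
    have hb0 : ∀ c ∈ M.DS YV YF, ez YV y (M.vt c) + ez YF w (M.fc c) = 0 := by
      intro c hc
      have := hab c hc
      rw [o6 c, neg_zero] at this
      exact this
    have hcn := hCn (fun v => ez YV y v = 0) (fun f => ez YF w f = 0) (by
      intro d hd
      have b1 := hb0 d ((mem_DS M).2 (Or.inl hd))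
      have b2 := hb0 (M.σ d) ((mem_DS M).2 (Or.inr (by rw [Equiv.symm_apply_apply]; exact hd)))
      rw [vt_σ, fc_σ] at b2
      constructor
      · constructor
        · intro h; linarith
        · intro h; linarith
      · constructor
        · intro h; linarith
        · intro h; linarith)
    have hyw : (∀ v ∈ YV, ez YV y v = 0) ∧ (∀ f ∈ YF, ez YF w f = 0) := by
      rcases hcn with h | h
      · exact h
      · rcases hev y w h3 with ⟨v, hv⟩ | ⟨f, hf⟩ | ⟨h4, h5⟩
        · exact absurd (show ez YV y v = 0 by rw [ez_val]; exact hv) (h.1 v v.2)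
        · exact absurd (show ez YF w f = 0 by rw [ez_val]; exact hf) (h.2 f f.2)
        · exact ⟨fun v hv => absurd hv (by rw [h4]; exact Finset.notMem_empty v),
            fun f hf => absurd hf (by rw [h5]; exact Finset.notMem_empty f)⟩
    have hy0 : y = 0 := by
      funext v
      rw [← ez_val YV y v]
      exact hyw.1 v v.2
    have hw0 : w = 0 := by
      funext f
      rw [← ez_val YF w f]
      exact hyw.2 f f.2
    rw [hx0, hy0, hw0]
    rfl
  have hfin := LinearMap.finrank_le_finrank_of_injective hinj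
  simp only [Module.finrank_prod, Module.finrank_fintype_fun_eq_card, Fintype.card_coe,
    Module.finrank_self] at hfin
  omega

end

theorem stmtHole : StmtHole := by
  intro D V E F _ _ _ _ _ _ _ _ M YV YF H hCn hH hdis hprop
  obtain ⟨e₁, he₁⟩ := hH
  have he₁' : e₁ ∉ M.SE YV YF := fun h => Finset.disjoint_left.1 hdis h he₁
  have hnot : ∀ c, c ∉ M.DS YV YF → M.ed c ∉ M.SE YV YF ∧ M.ed (M.σ.symm c) ∉ M.SE YV YF := by
    intro c hc
    rw [mem_DS, not_or] at hc
    exact ⟨fun h => hc.1 ((mem_SE M).1 h), fun h => hc.2 ((mem_SE M).1 h)⟩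
  have second : (∃ e, e ∉ M.SE YV YF ∧ e ∉ H) →
      (M.SE YV YF).card + YV.card + YF.card ≤ (M.DS YV YF).card := by
    rintro ⟨e₂, h1, h2⟩
    have := general M YV YF hCn (Option (Option (M.SE YV YF)))
      (fun e => if h : e ∈ M.SE YV YF then some (some ⟨e, h⟩) else
        if e ∈ H then some none else none) ?_ none ?_
    · rw [Fintype.card_option, Fintype.card_option, Fintype.card_coe] at this
      omega
    · intro t
      rcases t with _ | _ | ⟨e, he⟩
      · exact ⟨e₂, by simp only [dif_neg h1, if_neg h2]⟩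
      · exact ⟨e₁, by simp only [dif_neg he₁', if_pos he₁]⟩
      · exact ⟨e, by simp only [dif_pos he]⟩
    · intro c hc
      have h3 := hnot c hc
      have h4 := hprop c hc
      simp only [dif_neg h3.1, dif_neg h3.2, h4]
  refine ⟨?_, second⟩
  by_cases hex : ∃ e, e ∉ M.SE YV YF ∧ e ∉ H
  · exact (second hex).trans (Nat.le_succ _)
  · push Not at hex
    have := general M YV YF hCn (Option (M.SE YV YF))
      (fun e => if h : e ∈ M.SE YV YF then some ⟨e, h⟩ else none) ?_ none ?_
    · rw [Fintype.card_option, Fintype.card_coe] at this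
      omega
    · intro t
      rcases t with _ | ⟨e, he⟩
      · exact ⟨e₁, by simp only [dif_neg he₁']⟩
      · exact ⟨e, by simp only [dif_pos he]⟩
    · intro c hc
      have h3 := hnot c hc
      simp only [dif_neg h3.1, dif_neg h3.2]

end Pool.Agent.Helper89.VF
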