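import Pool.Agent.Helper96.VF.GoalsL

/-!
Project VF (MP_6829b3_nt), packet CNT.
-/

set_option autoImplicit false

namespace Pool.Agent.Helper89.VF

open Pool.Agent.Helper96.VF

theorem coprime_six (m : ℕ) : Nat.Coprime m 6 ↔ (m % 6 = 1 ∨ m % 6 = 5) := by
  unfold Nat.Coprime
  rw [Nat.gcd_comm, Nat.gcd_rec]
  have h : m % 6 < 6 := Nat.mod_lt _ (by norm_num)
  generalize m % 6 = r at h ⊢
  interval_cases r <;> simp

theorem card_cop_succ (x : ℕ) :
    (Cop (x + 1)).card = (Cop x).card + (if Nat.Coprime (x + 1) 6 then 1 else 0) := by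
  unfold Cop
  have h : Finset.Icc 1 (x + 1) = insert (x + 1) (Finset.Icc 1 x) := by
    ext y
    simp only [Finset.mem_Icc, Finset.mem_insert]
    omega
  rw [h, Finset.filter_insert]
  split_ifs
  · rw [Finset.card_insert_of_notMem]
    intro hx
    have := (Finset.mem_Icc.1 (Finset.mem_filter.1 hx).1).2
    omega
  · rfl

theorem card_cop (x : ℕ) : x ≤ 3 * (Cop x).card + 1 ∧ 3 * (Cop x).card ≤ x + 2 ∧
    (x % 6 = 0 → 3 * (Cop x).card = x) ∧ (x % 6 = 1 → 3 * (Cop x).card = x + 2) ∧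
    (x % 6 = 2 → 3 * (Cop x).card = x + 1) ∧ (x % 6 = 3 → 3 * (Cop x).card = x) ∧
    (x % 6 = 4 → 3 * (Cop x).card + 1 = x) ∧ (x % 6 = 5 → 3 * (Cop x).card = x + 1) := by
  induction x with
  | zero => simp [Cop]
  | succ x ih =>
    rw [card_cop_succ]
    have h := coprime_six (x + 1)
    by_cases hc : Nat.Coprime (x + 1) 6
    · rw [if_pos hc]
      rw [h] at hc
      omega
    · rw [if_neg hc]
      rw [h] at hc
      omega

/-- **Packet CNT** -/
theorem gCNT : CNT := by
  intro n a ha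
  obtain ⟨h1, h2, -⟩ := card_cop (n / a)
  have h3 : a * (n / a) ≤ n := Nat.mul_div_le n a
  have h4 : n < a * (n / a + 1) := by
    have := Nat.lt_mul_div_succ n (show 0 < a by omega)
    exact this
  set x := n / a with hx
  set c := (Cop x).card with hc
  have ha' : (0 : ℝ) < a := by exact_mod_cast ha
  have h1' : (x : ℝ) ≤ 3 * c + 1 := by exact_mod_cast h1
  have h2' : 3 * (c : ℝ) ≤ x + 2 := by exact_mod_cast h2
  have h3' : (a : ℝ) * x ≤ n := by exact_mod_cast h3
  have h4' : (n : ℝ) < a * (x + 1) := by exact_mod_cast h4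
  have h5 : (x : ℝ) / 3 ≤ (n : ℝ) / (3 * a) := by
    rw [div_le_div_iff₀ (by norm_num) (by positivity)]
    nlinarith
  have h6 : (n : ℝ) / (3 * a) ≤ ((x : ℝ) + 1) / 3 := by
    rw [div_le_div_iff₀ (by positivity) (by norm_num)]
    nlinarith
  rw [abs_le]
  constructor
  · linarith
  · linarith

end Pool.Agent.Helper89.VF
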